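import Mathlib

/-!
# Wronskians of a derivation (pure algebra)

Used in the proof that the genus of a function field is non-negative (piece PT-H of MP_005844_an).
-/

namespace Pool.Agent.Helper83.Pak

open Matrix

variable {k K : Type*} [Field k] [Field K] [Algebra k K]

/-- the Wronskian matrix `(D^i f_j)` -/
def wmat (D : Derivation k K K) {n : ℕ} (f : Fin n → K) : Matrix (Fin n) (Fin n) K :=
  Matrix.of fun i j => (⇑D)^[(i : ℕ)] (f j)

/-- the Wronskian -/
noncomputable def wron (D : Derivation k K K) {n : ℕ} (f : Fin n → K) : K := (wmat D f).det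

/-- The Wronskian of functions independent over the constants does not vanish. -/
theorem wron_ne_zero (D : Derivation k K K)
    (hD : ∀ x : K, D x = 0 → ∃ c : k, algebraMap k K c = x) :
    ∀ {n : ℕ} (f : Fin n → K), LinearIndependent k f → wron D f ≠ 0 := by
  intro n
  induction n with
  | zero =>
    intro f _
    simp [wron]
  | succ n ih =>
    intro f hf h0
    obtain ⟨v, hv, hv0⟩ := Matrix.exists_mulVec_eq_zero_iff.2 h0
    obtain ⟨l0, hl0⟩ : ∃ l, v l ≠ 0 := by
      by_contra h
      push Not at h
      exact hv (funext h)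
    -- normalise
    set a : Fin (n + 1) → K := fun l => v l / v l0 with ha
    have ha0 : a l0 = 1 := by simp [ha, div_self hl0]
    have hrow : ∀ i : Fin (n + 1), ∑ l, (⇑D)^[(i : ℕ)] (f l) * a l = 0 := by
      intro i
      have := congrFun hv0 i
      simp only [Matrix.mulVec, dotProduct, wmat, Matrix.of_apply, Pi.zero_apply] at this
      simp only [ha, ← mul_div_assoc, ← Finset.sum_div, this, zero_div]
    -- the smaller family
    have hind : LinearIndependent k (f ∘ l0.succAbove) :=
      hf.comp _ Fin.succAbove_right_injective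
    have hne := ih (f ∘ l0.succAbove) hind
    have hDa : ∀ j : Fin n, D (a (l0.succAbove j)) = 0 := by
      by_contra hcon
      apply hne
      refine Matrix.exists_mulVec_eq_zero_iff.1 ⟨fun j => D (a (l0.succAbove j)), ?_, ?_⟩
      · intro h
        exact hcon fun j => congrFun h j
      · funext i
        simp only [Matrix.mulVec, dotProduct, wmat, Matrix.of_apply, Pi.zero_apply,
          Function.comp_apply]
        have e1 : ∑ l, (⇑D)^[(i : ℕ)] (f l) * D (a l) = 0 := by
          have h1 := hrow i.castSucc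
          have h2 := hrow i.succ
          have h3 : D (∑ l, (⇑D)^[(i : ℕ)] (f l) * a l) = 0 := by
            simp only [Fin.val_castSucc] at h1
            rw [h1, map_zero]
          rw [map_sum] at h3
          simp only [Derivation.leibniz, smul_eq_mul, Finset.sum_add_distrib] at h3
          have h4 : ∑ l, a l * D ((⇑D)^[(i : ℕ)] (f l)) = 0 := by
            rw [← h2]
            refine Finset.sum_congr rfl fun l _ => ?_
            rw [mul_comm, Fin.val_succ, Function.iterate_succ_apply']
          rw [h4, add_zero] at h3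
          exact h3
        rw [Fin.sum_univ_succAbove _ l0] at e1
        simpa [ha0] using e1
    have hDall : ∀ l, D (a l) = 0 := by
      intro l
      rcases Fin.eq_self_or_eq_succAbove l0 l with h | ⟨j, h⟩
      · rw [h, ha0]; simp
      · rw [h]; exact hDa j
    choose c hc using fun l => hD (a l) (hDall l)
    have h1 := hrow 0
    simp only [Fin.val_zero, Function.iterate_zero, id] at h1
    have h2 : ∑ l, c l • f l = 0 := by
      rw [← h1]
      refine Finset.sum_congr rfl fun l _ => ?_
      rw [← hc l, Algebra.smul_def, mul_comm]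
    have h3 := Fintype.linearIndependent_iff.1 hf c h2 l0
    have h4 := hc l0
    rw [h3, map_zero, ha0] at h4
    exact zero_ne_one h4

/-- the coefficients of `(u E)^k = ∑ L k i E^i` -/
def chg (E : Derivation k K K) (u : K) : ℕ → ℕ → K
  | 0, 0 => 1
  | 0, _ + 1 => 0
  | m + 1, 0 => u * E (chg E u m 0)
  | m + 1, i + 1 => u * E (chg E u m (i + 1)) + u * chg E u m i

theorem chg_of_lt (E : Derivation k K K) (u : K) : ∀ {m i : ℕ}, m < i → chg E u m i = 0
  | 0, 0, h => absurd h (lt_irrefl _)
  | 0, _ + 1, _ => rfl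
  | m + 1, 0, h => absurd h (by omega)
  | m + 1, i + 1, h => by
    rw [chg, chg_of_lt E u (m := m) (i := i + 1) (by omega),
      chg_of_lt E u (m := m) (i := i) (by omega)]
    simp

theorem chg_self (E : Derivation k K K) (u : K) : ∀ m : ℕ, chg E u m m = u ^ m
  | 0 => by simp [chg]
  | m + 1 => by
    rw [chg, chg_of_lt E u (m := m) (i := m + 1) (by omega), chg_self E u m]
    simp [pow_succ, mul_comm]

theorem iterate_chg (E : Derivation k K K) (u : K) (x : K) (m : ℕ) :
    (⇑(u • E))^[m] x = ∑ i ∈ Finset.range (m + 1), chg E u m i * (⇑E)^[i] x := by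
  induction m with
  | zero => simp [chg]
  | succ m ih =>
    rw [Function.iterate_succ_apply', ih, map_sum]
    simp only [Derivation.smul_apply, smul_eq_mul, Derivation.leibniz]
    rw [Finset.sum_range_succ' _ (m + 1)]
    have e1 : ∑ i ∈ Finset.range (m + 1), chg E u (m + 1) (i + 1) * (⇑E)^[i + 1] x
        = (∑ i ∈ Finset.range (m + 1), u * E (chg E u m (i + 1)) * (⇑E)^[i + 1] x)
          + ∑ i ∈ Finset.range (m + 1), u * chg E u m i * (⇑E)^[i + 1] x := by
      rw [← Finset.sum_add_distrib]
      refine Finset.sum_congr rfl fun i _ => ?_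
      rw [chg]; ring
    have e2 : ∑ i ∈ Finset.range (m + 1), u * E (chg E u m (i + 1)) * (⇑E)^[i + 1] x
        = ∑ i ∈ Finset.range m, u * E (chg E u m (i + 1)) * (⇑E)^[i + 1] x := by
      rw [Finset.sum_range_succ, chg_of_lt E u (m := m) (i := m + 1) (by omega)]
      simp
    have e3 : ∑ i ∈ Finset.range (m + 1), (chg E u m i * (u * E ((⇑E)^[i] x))
          + (⇑E)^[i] x * (u * E (chg E u m i)))
        = (∑ i ∈ Finset.range (m + 1), u * chg E u m i * (⇑E)^[i + 1] x)
          + ∑ i ∈ Finset.range (m + 1), u * E (chg E u m i) * (⇑E)^[i] x := by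
      rw [← Finset.sum_add_distrib]
      refine Finset.sum_congr rfl fun i _ => ?_
      rw [Function.iterate_succ_apply']; ring
    rw [e1, e2, e3, Finset.sum_range_succ' (fun i => u * E (chg E u m i) * (⇑E)^[i] x) m, chg]
    ring

/-- lower triangular change of rows -/
theorem det_lower {n : ℕ} (L : ℕ → ℕ → K) (hL : ∀ m i, m < i → L m i = 0)
    (g g' : ℕ → Fin n → K)
    (h : ∀ (m : ℕ) (j : Fin n), g' m j = ∑ i ∈ Finset.range (m + 1), L m i * g i j) :
    (Matrix.of fun m j : Fin n => g' m j).det
      = (∏ m ∈ Finset.range n, L m m) * (Matrix.of fun m j : Fin n => g m j).det := by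
  have e1 : (Matrix.of fun m j : Fin n => g' m j)
      = (Matrix.of fun m i : Fin n => L m i) * (Matrix.of fun m j : Fin n => g m j) := by
    ext m j
    rw [Matrix.of_apply, h m j, Matrix.mul_apply]
    simp only [Matrix.of_apply]
    rw [Fin.sum_univ_eq_sum_range (fun i => L m i * g i j) n]
    refine Finset.sum_subset (Finset.range_subset_range.2 (by omega)) fun i _ hi => ?_
    rw [Finset.mem_range, not_lt] at hi
    rw [hL m i (by omega), zero_mul]
  rw [e1, Matrix.det_mul]
  congr 1
  rw [Matrix.det_of_isLowerTriangular]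
  · simp only [Matrix.of_apply]
    exact Fin.prod_univ_eq_prod_range (fun m => L m m) n
  · intro i j hij
    exact hL _ _ hij

/-- change of the derivation -/
theorem wron_smul (E : Derivation k K K) (u : K) {n : ℕ} (f : Fin n → K) :
    wron (u • E) f = u ^ (∑ i ∈ Finset.range n, i) * wron E f := by
  have h := det_lower (chg E u) (fun m i h => chg_of_lt E u h) (fun i j => (⇑E)^[i] (f j))
    (fun i j => (⇑(u • E))^[i] (f j)) (fun m j => iterate_chg E u (f j) m)
  rw [wron, wron, wmat, wmat, h]
  congr 1
  rw [← Finset.prod_pow_eq_pow_sum]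
  exact Finset.prod_congr rfl fun m _ => chg_self E u m

/-- the coefficients of `D^m (h g) = ∑ i, lb m i * D^i g` -/
def lb (D : Derivation k K K) (h : K) : ℕ → ℕ → K
  | 0, 0 => h
  | 0, _ + 1 => 0
  | m + 1, 0 => D (lb D h m 0)
  | m + 1, i + 1 => D (lb D h m (i + 1)) + lb D h m i

theorem lb_of_lt (D : Derivation k K K) (h : K) : ∀ {m i : ℕ}, m < i → lb D h m i = 0
  | 0, 0, hh => absurd hh (lt_irrefl _)
  | 0, _ + 1, _ => rfl
  | m + 1, 0, hh => absurd hh (by omega)
  | m + 1, i + 1, hh => by
    rw [lb, lb_of_lt D h (m := m) (i := i + 1) (by omega),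
      lb_of_lt D h (m := m) (i := i) (by omega)]
    simp

theorem lb_self (D : Derivation k K K) (h : K) : ∀ m : ℕ, lb D h m m = h
  | 0 => by simp [lb]
  | m + 1 => by
    rw [lb, lb_of_lt D h (m := m) (i := m + 1) (by omega), lb_self D h m]
    simp

theorem iterate_lb (D : Derivation k K K) (h : K) (x : K) (m : ℕ) :
    (⇑D)^[m] (h * x) = ∑ i ∈ Finset.range (m + 1), lb D h m i * (⇑D)^[i] x := by
  induction m with
  | zero => simp [lb]
  | succ m ih =>
    rw [Function.iterate_succ_apply', ih, map_sum]
    simp only [smul_eq_mul, Derivation.leibniz]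
    rw [Finset.sum_range_succ' _ (m + 1)]
    have e1 : ∑ i ∈ Finset.range (m + 1), lb D h (m + 1) (i + 1) * (⇑D)^[i + 1] x
        = (∑ i ∈ Finset.range (m + 1), D (lb D h m (i + 1)) * (⇑D)^[i + 1] x)
          + ∑ i ∈ Finset.range (m + 1), lb D h m i * (⇑D)^[i + 1] x := by
      rw [← Finset.sum_add_distrib]
      refine Finset.sum_congr rfl fun i _ => ?_
      rw [lb]; ring
    have e2 : ∑ i ∈ Finset.range (m + 1), D (lb D h m (i + 1)) * (⇑D)^[i + 1] x
        = ∑ i ∈ Finset.range m, D (lb D h m (i + 1)) * (⇑D)^[i + 1] x := by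
      rw [Finset.sum_range_succ, lb_of_lt D h (m := m) (i := m + 1) (by omega)]
      simp
    have e3 : ∑ i ∈ Finset.range (m + 1), (lb D h m i * D ((⇑D)^[i] x)
          + (⇑D)^[i] x * D (lb D h m i))
        = (∑ i ∈ Finset.range (m + 1), lb D h m i * (⇑D)^[i + 1] x)
          + ∑ i ∈ Finset.range (m + 1), D (lb D h m i) * (⇑D)^[i] x := by
      rw [← Finset.sum_add_distrib]
      refine Finset.sum_congr rfl fun i _ => ?_
      rw [Function.iterate_succ_apply']; ring
    rw [e1, e2, e3, Finset.sum_range_succ' (fun i => D (lb D h m i) * (⇑D)^[i] x) m, lb]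
    ring

/-- multiplication of all functions by the same function -/
theorem wron_mul_left (D : Derivation k K K) (h : K) {n : ℕ} (f : Fin n → K) :
    wron D (fun j => h * f j) = h ^ n * wron D f := by
  have hh := det_lower (lb D h) (fun m i hh => lb_of_lt D h hh) (fun i j => (⇑D)^[i] (f j))
    (fun i j => (⇑D)^[i] (h * f j)) (fun m j => iterate_lb D h (f j) m)
  rw [wron, wron, wmat, wmat, hh]
  congr 1
  rw [Finset.prod_congr rfl fun m _ => lb_self D h m]
  simp

/-- the Wronskian of elements of a subring stable under `D` lies in the subring -/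
theorem wron_mem (D : Derivation k K K) (S : Subring K) (hS : ∀ x ∈ S, D x ∈ S) {n : ℕ}
    (f : Fin n → K) (hf : ∀ j, f j ∈ S) : wron D f ∈ S := by
  have h1 : ∀ (m : ℕ) (x : K), x ∈ S → (⇑D)^[m] x ∈ S := by
    intro m
    induction m with
    | zero => intro x hx; simpa using hx
    | succ m ih => intro x hx; rw [Function.iterate_succ_apply']; exact hS _ (ih x hx)
  rw [wron, Matrix.det_apply]
  refine Subring.sum_mem _ fun σ _ => ?_
  have h2 : (∏ i, wmat D f (σ i) i) ∈ S :=
    Subring.prod_mem _ fun i _ => h1 _ _ (hf i)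
  rcases Int.units_eq_one_or (Equiv.Perm.sign σ) with h | h
  · rw [h, one_smul]; exact h2
  · rw [h, Units.neg_smul, one_smul]; exact S.neg_mem h2

end Pool.Agent.Helper83.Pak
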