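import Pool.Agent.Helper82.Pak.PTG2
import Pool.Agent.Helper83.Pak.Wronskian

/-!
# Piece PT-H of MP_005844_an: the genus is non-negative

Proof with the Wronskian of a basis of `L (m t_∞)`.
-/

namespace Pool.Agent.Helper63.Pak

open IntermediateField Pool.Agent.Helper83.Pak

set_option linter.unusedSectionVars false

variable {Ω : Type} [Field Ω] [Algebra ℂ Ω] [CurveUniverse Ω]

namespace PTH

variable {K : IntermediateField ℂ Ω}

theorem ordO_pow (v : Pt Ω) (hK : FF K) {z : Ω} (hz : z ∈ K) (hz0 : z ≠ 0) (n : ℕ) :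
    ordO v K (z ^ n) = n * ordO v K z := by
  induction n with
  | zero =>
    have := ordO_algebraMap v (K := K) (1 : ℂ)
    simpa using this
  | succ n ih =>
    rw [pow_succ, ordO_mul v hK (pow_mem hz n) hz (pow_ne_zero _ hz0) hz0, ih]
    push_cast
    ring

theorem mem_ring_iff' (v : Pt Ω) (hK : FF K) {z : Ω} (hz : z ∈ K) :
    z ∈ v.ring ↔ z = 0 ∨ 0 ≤ ordO v K z := by
  by_cases h0 : z = 0
  · simp [h0, zero_mem]
  · rw [ordO_nonneg_iff v hK hz h0]
    simp [h0]

/-- the valuation ring as a subring of `K` -/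
noncomputable def ringIn (v : Pt Ω) (K : IntermediateField ℂ Ω) : Subring K :=
  v.ring.toSubring.comap (algebraMap K Ω)

theorem mem_ringIn {v : Pt Ω} {x : K} : x ∈ ringIn v K ↔ (x : Ω) ∈ v.ring := Iff.rfl

theorem ne_zero_coe {x : K} (h : x ≠ 0) : (x : Ω) ≠ 0 := by
  intro h'
  apply h
  exact Subtype.ext h'

/-- order of the Wronskian of regular functions -/
theorem local_bound (hK : FF K) {t : Ω} (D : Derivation ℂ K K)
    (hker : ∀ f : K, D f = 0 → (f : Ω) ∈ (⊥ : IntermediateField ℂ Ω)) (v : Pt Ω)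
    (h1 : ∀ f : K, (f : Ω) ∈ v.ring → D f ≠ 0 → -ordD v K t ≤ ordO v K (D f : Ω))
    (h2 : ∃ π : K, ordO v K π = 1 ∧ ordO v K (D π : Ω) = -ordD v K t)
    {n : ℕ} (g : Fin n → K) (hg : ∀ j, (g j : Ω) ∈ v.ring) (hW : wron D g ≠ 0) :
    ((∑ i ∈ Finset.range n, i : ℕ) : ℤ) * (-ordD v K t) ≤ ordO v K ((wron D g : K) : Ω) := by
  obtain ⟨π, hπ, hDπ⟩ := h2
  have hu : D π ≠ 0 := by
    intro h
    obtain ⟨c, hc⟩ := IntermediateField.mem_bot.1 (hker π h)
    rw [← hc, ordO_algebraMap] at hπ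
    exact zero_ne_one hπ
  set u : K := D π with hu_def
  have hD : D = u • (u⁻¹ • D) := by
    rw [smul_smul, mul_inv_cancel₀ hu, one_smul]
  have hE : ∀ x ∈ ringIn v K, (u⁻¹ • D) x ∈ ringIn v K := by
    intro x hx
    rw [mem_ringIn, Derivation.smul_apply, smul_eq_mul]
    by_cases hx0 : D x = 0
    · rw [hx0, mul_zero]
      exact zero_mem _
    · have e1 : ((u⁻¹ * D x : K) : Ω) = (u : Ω)⁻¹ * (D x : Ω) := by push_cast; rfl
      rw [e1]
      have hm : (u : Ω)⁻¹ * (D x : Ω) ∈ K := mul_mem (inv_mem u.2) (D x).2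
      have hne : (u : Ω)⁻¹ * (D x : Ω) ≠ 0 :=
        mul_ne_zero (inv_ne_zero (ne_zero_coe hu)) (ne_zero_coe hx0)
      rw [← ordO_nonneg_iff v hK hm hne,
        ordO_mul v hK (inv_mem u.2) (D x).2 (inv_ne_zero (ne_zero_coe hu)) (ne_zero_coe hx0),
        ordO_inv v hK u.2, hDπ]
      have := h1 x hx hx0
      linarith
  have hmem : wron (u⁻¹ • D) g ∈ ringIn v K := wron_mem _ _ hE g hg
  have hWW : wron D g = u ^ (∑ i ∈ Finset.range n, i) * wron (u⁻¹ • D) g := by
    conv_lhs => rw [hD]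
    exact wron_smul _ _ _
  have hE0 : wron (u⁻¹ • D) g ≠ 0 := by
    intro h
    rw [h, mul_zero] at hWW
    exact hW hWW
  have e2 : ((wron D g : K) : Ω) = (u : Ω) ^ (∑ i ∈ Finset.range n, i) * ((wron (u⁻¹ • D) g : K) : Ω) := by
    rw [hWW]; push_cast; rfl
  rw [e2, ordO_mul v hK (pow_mem u.2 _) (wron (u⁻¹ • D) g).2 (pow_ne_zero _ (ne_zero_coe hu))
    (ne_zero_coe hE0), ordO_pow v hK u.2 (ne_zero_coe hu), hDπ]
  have h3 : 0 ≤ ordO v K ((wron (u⁻¹ • D) g : K) : Ω) :=
    (ordO_nonneg_iff v hK (wron (u⁻¹ • D) g).2 (ne_zero_coe hE0)).2 hmem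
  linarith

theorem finsum_mono' {ι : Type*} {F G : ι → ℤ} (hF : (Function.support F).Finite)
    (hG : (Function.support G).Finite) (h : ∀ i, F i ≤ G i) : ∑ᶠ i, F i ≤ ∑ᶠ i, G i := by
  have h1 : 0 ≤ ∑ᶠ i, (G i - F i) := finsum_nonneg fun i => sub_nonneg.2 (h i)
  rw [finsum_sub_distrib hG hF] at h1
  linarith

theorem exists_transcendental (hK : FF K) : ∃ t ∈ K, Transcendental ℂ t := by
  by_contra hcon
  push Not at hcon
  apply hK.2
  rw [eq_bot_iff]
  intro z hz
  have h1 : IsAlgebraic ℂ z := by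
    by_contra h
    exact hcon z hz h
  have h2 : IsIntegral ℂ z := h1.isIntegral
  have h3 := IsAlgClosed.degree_eq_one_of_irreducible ℂ (minpoly.irreducible h2)
  obtain ⟨c, hc⟩ := minpoly.mem_range_of_degree_eq_one ℂ z h3
  exact IntermediateField.mem_bot.2 ⟨c, hc⟩

theorem ff_adjoin {t : Ω} (htr : Transcendental ℂ t) : FF (ℂ⟮t⟯ : IntermediateField ℂ Ω) := by
  refine ⟨IntermediateField.fg_def.2 ⟨{t}, Set.finite_singleton t, rfl⟩, fun h => ?_⟩
  have h1 : t ∈ (⊥ : IntermediateField ℂ Ω) := by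
    rw [← h]; exact mem_adjoin_simple_self ℂ t
  obtain ⟨c, hc⟩ := IntermediateField.mem_bot.1 h1
  apply htr
  rw [← hc]
  exact isAlgebraic_algebraMap c

/-- `t - c` at a point where `t` takes the value `c` -/
theorem ordO_sub_val (hK : FF K) {t : Ω} (ht : t ∈ K) (htr : Transcendental ℂ t) (v : Pt Ω)
    (c : ℂ) (hc : val v t = (c : OnePoint ℂ)) : 1 ≤ ordO v K (t - algebraMap ℂ Ω c) := by
  have hne : t - algebraMap ℂ Ω c ≠ 0 := by
    intro h
    apply htr
    rw [sub_eq_zero.1 h]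
    exact isAlgebraic_algebraMap c
  exact (ordO_pos_iff v hK (sub_mem ht (K.algebraMap_mem c)) hne).2 ((pt_val_eq_coe_iff v t c).1 hc)

theorem sub_ne_zero' {t : Ω} (htr : Transcendental ℂ t) (c : ℂ) : t - algebraMap ℂ Ω c ≠ 0 := by
  intro h
  apply htr
  rw [sub_eq_zero.1 h]
  exact isAlgebraic_algebraMap c

theorem sub_mem_ring {t : Ω} (v : Pt Ω) (h : t ∈ v.ring) (c : ℂ) :
    t - algebraMap ℂ Ω c ∈ v.ring := sub_mem h (v.const_mem c)

/-- kill the finite poles -/
theorem kill_poles (hK : FF K) {t : Ω} (ht : t ∈ K) (htr : Transcendental ℂ t) {b : Ω}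
    (hb : b ∈ K) (hb0 : b ≠ 0) :
    ∃ a ∈ ℂ⟮t⟯, a ≠ 0 ∧ ∀ v : Pt Ω, t ∈ v.ring → a * b ∈ v.ring := by
  classical
  have hfin := finite_ordO hK b
  let cc : Pl K → ℂ := fun P => if h : ∃ c : ℂ, val P.pt t = (c : OnePoint ℂ) then h.choose else 0
  let a : Ω := ∏ P ∈ hfin.toFinset, (t - algebraMap ℂ Ω (cc P)) ^ (ordO P.pt K b).natAbs
  have htK : t ∈ ℂ⟮t⟯ := mem_adjoin_simple_self ℂ t
  have hfac : ∀ P : Pl K, ∀ L : IntermediateField ℂ Ω, t ∈ L →
      (t - algebraMap ℂ Ω (cc P)) ^ (ordO P.pt K b).natAbs ∈ L := fun P L hL =>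
    pow_mem (sub_mem hL (L.algebraMap_mem _)) _
  refine ⟨a, ?_, ?_, ?_⟩
  · exact prod_mem fun P _ => hfac P _ htK
  · exact Finset.prod_ne_zero_iff.2 fun P _ => pow_ne_zero _ (sub_ne_zero' htr _)
  · intro v hv
    have haK : a ∈ K := prod_mem fun P _ => hfac P _ ht
    have ha0 : a ≠ 0 := Finset.prod_ne_zero_iff.2 fun P _ => pow_ne_zero _ (sub_ne_zero' htr _)
    have hav : a ∈ v.ring := prod_mem fun P _ => pow_mem (sub_mem_ring v hv _) _
    rw [← ordO_nonneg_iff v hK (mul_mem haK hb) (mul_ne_zero ha0 hb0),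
      ordO_mul v hK haK hb ha0 hb0]
    have ha1 : 0 ≤ ordO v K a := (ordO_nonneg_iff v hK haK ha0).2 hav
    by_cases hbv : 0 ≤ ordO v K b
    · linarith
    · push Not at hbv
      set P : Pl K := Pl.mk K v with hP
      have hsame : SameOn K P.pt v := Pl.sameOn_pt_mk K v
      have hbP : ordO P.pt K b = ordO v K b := ordO_congr P.pt hsame
      have hPmem : P ∈ hfin.toFinset := by
        rw [Set.Finite.mem_toFinset]
        show ordO P.pt K b ≠ 0
        rw [hbP]; exact ne_of_lt hbv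
      have hfac2 : a = (t - algebraMap ℂ Ω (cc P)) ^ (ordO P.pt K b).natAbs *
          ∏ Q ∈ hfin.toFinset.erase P, (t - algebraMap ℂ Ω (cc Q)) ^ (ordO Q.pt K b).natAbs :=
        (Finset.mul_prod_erase _ _ hPmem).symm
      set a' : Ω := ∏ Q ∈ hfin.toFinset.erase P,
        (t - algebraMap ℂ Ω (cc Q)) ^ (ordO Q.pt K b).natAbs with ha'
      have ha'K : a' ∈ K := prod_mem fun P _ => hfac P _ ht
      have ha'0 : a' ≠ 0 := Finset.prod_ne_zero_iff.2 fun P _ => pow_ne_zero _ (sub_ne_zero' htr _)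
      have ha'v : a' ∈ v.ring := prod_mem fun P _ => pow_mem (sub_mem_ring v hv _) _
      have ha'1 : 0 ≤ ordO v K a' := (ordO_nonneg_iff v hK ha'K ha'0).2 ha'v
      have hval : val v t = ((cc P : ℂ) : OnePoint ℂ) := by
        have h1 : val P.pt t = val v t := pt_val_eq_of_sameOn hsame ht
        have h2 : ∃ c : ℂ, val P.pt t = (c : OnePoint ℂ) := by
          rw [h1]
          have h3 := (pt_mem_ring_iff v t).1 hv
          rcases hv' : val v t with _ | c
          · exact absurd hv' h3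
          · exact ⟨c, rfl⟩
        have h4 : cc P = h2.choose := dif_pos h2
        rw [h4, ← h1]
        exact h2.choose_spec
      have hone := ordO_sub_val hK ht htr v _ hval
      rw [hfac2, ordO_mul v hK (hfac P K ht) ha'K (pow_ne_zero _ (sub_ne_zero' htr _)) ha'0,
        ordO_pow v hK (sub_mem ht (K.algebraMap_mem _)) (sub_ne_zero' htr _), hbP]
      have h5 : ((ordO v K b).natAbs : ℤ) = -ordO v K b := by omega
      rw [h5]
      nlinarith

/-- bounded poles at infinity -/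
theorem bound_inf (hK : FF K) {t : Ω} (ht : t ∈ K) (htr : Transcendental ℂ t) {b : Ω}
    (hb : b ∈ K) (hb0 : b ≠ 0) :
    ∃ c : ℕ, ∀ v : Pt Ω, t ∉ v.ring → (t ^ c)⁻¹ * b ∈ v.ring := by
  classical
  have hfin := finite_ordO hK b
  have ht0 : t ≠ 0 := fun h => htr (by rw [h]; exact isAlgebraic_zero)
  refine ⟨∑ P ∈ hfin.toFinset, (ordO P.pt K b).natAbs, fun v hv => ?_⟩
  set c := ∑ P ∈ hfin.toFinset, (ordO P.pt K b).natAbs with hc
  have hsame : SameOn K (Pl.mk K v).pt v := Pl.sameOn_pt_mk K v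
  have hbP : ordO (Pl.mk K v).pt K b = ordO v K b := ordO_congr _ hsame
  have h1 : (ordO v K b).natAbs ≤ c := by
    by_cases h0 : ordO v K b = 0
    · rw [h0]; simp
    · have hPmem : Pl.mk K v ∈ hfin.toFinset := by
        rw [Set.Finite.mem_toFinset]
        show ordO (Pl.mk K v).pt K b ≠ 0
        rw [hbP]; exact h0
      rw [← hbP, hc]
      exact Finset.single_le_sum (f := fun P : Pl K => (ordO P.pt K b).natAbs)
        (fun _ _ => Nat.zero_le _) hPmem
  have h2 : ordO v K t < 0 := by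
    by_contra h
    push Not at h
    exact hv ((ordO_nonneg_iff v hK ht ht0).1 h)
  have htc : t ^ c ∈ K := pow_mem ht c
  rw [← ordO_nonneg_iff v hK (mul_mem (inv_mem htc) hb)
    (mul_ne_zero (inv_ne_zero (pow_ne_zero _ ht0)) hb0),
    ordO_mul v hK (inv_mem htc) hb (inv_ne_zero (pow_ne_zero _ ht0)) hb0, ordO_inv v hK htc,
    ordO_pow v hK ht ht0]
  have h3 : -(ordO v K b) ≤ c := by omega
  nlinarith

theorem linearIndependent_pow' {A : Type*} [CommRing A] [Algebra ℂ A] {t : A}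
    (htr : Transcendental ℂ t) (m : ℕ) : LinearIndependent ℂ fun j : Fin m => t ^ (j : ℕ) := by
  rw [Fintype.linearIndependent_iff]
  intro c hc i
  have h1 : Polynomial.aeval t (∑ j : Fin m, Polynomial.monomial (j : ℕ) (c j)) = 0 := by
    rw [map_sum, ← hc]
    refine Finset.sum_congr rfl fun j _ => ?_
    rw [Polynomial.aeval_monomial, Algebra.smul_def]
  have h2 := transcendental_iff.1 htr _ h1
  have h3 := congrArg (fun p => Polynomial.coeff p (i : ℕ)) h2
  simp only [Polynomial.finsetSum_coeff, Polynomial.coeff_monomial, Polynomial.coeff_zero] at h3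
  rw [Finset.sum_eq_single i] at h3
  · simpa using h3
  · intro j _ hj
    rw [if_neg]
    exact fun h => hj (Fin.ext h)
  · intro h; exact absurd (Finset.mem_univ _) h

theorem exists_family (hK : FF K) {t : Ω} (ht : t ∈ K) (htr : Transcendental ℂ t) :
    ∃ c : ℕ, ∀ m : ℕ, ∃ f : Fin ((m + 1) * ℂ⟮t⟯.relfinrank K) → K, LinearIndependent ℂ f ∧
      ∀ (v : Pt Ω) (j), (t ∈ v.ring → (f j : Ω) ∈ v.ring) ∧
        (t ∉ v.ring → (t ^ (m + c))⁻¹ * (f j : Ω) ∈ v.ring) := by
  classical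
  have hle : ℂ⟮t⟯ ≤ K := adjoin_simple_le_iff.2 ht
  have ht0 : t ≠ 0 := fun h => htr (by rw [h]; exact isAlgebraic_zero)
  have hN : ℂ⟮t⟯.relfinrank K = Module.finrank ℂ⟮t⟯ (extendScalars hle) :=
    relfinrank_eq_finrank_of_le hle
  have hpos : 0 < ℂ⟮t⟯.relfinrank K := ff_relfinrank_pos (ff_adjoin htr) hK hle
  rw [hN] at hpos ⊢
  have : Module.Finite ℂ⟮t⟯ (extendScalars hle) := Module.finite_of_finrank_pos hpos
  set N := Module.finrank ℂ⟮t⟯ (extendScalars hle) with hNdef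
  let b : Module.Basis (Fin N) ℂ⟮t⟯ (extendScalars hle) := Module.finBasis ℂ⟮t⟯ (extendScalars hle)
  have hbK : ∀ i, ((b i : extendScalars hle) : Ω) ∈ K := fun i => (b i).2
  have hb0 : ∀ i, ((b i : extendScalars hle) : Ω) ≠ 0 := fun i h =>
    b.ne_zero i (Subtype.ext h)
  choose a haK ha0 ha using fun i => kill_poles hK ht htr (hbK i) (hb0 i)
  have habK : ∀ i, a i * ((b i : extendScalars hle) : Ω) ∈ K := fun i =>
    mul_mem (hle (haK i)) (hbK i)
  choose c hc using fun i => bound_inf hK ht htr (habK i) (mul_ne_zero (ha0 i) (hb0 i))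
  let w : Fin N → (ℂ⟮t⟯)ˣ := fun i =>
    Units.mk0 (⟨a i, haK i⟩ : ℂ⟮t⟯) (fun h => ha0 i (congrArg Subtype.val h))
  have hind : LinearIndependent ℂ⟮t⟯ (w • ⇑b) := b.linearIndependent.units_smul w
  refine ⟨∑ i, c i, fun m => ?_⟩
  have htr' : Transcendental ℂ (⟨t, mem_adjoin_simple_self ℂ t⟩ : ℂ⟮t⟯) := by
    intro h
    apply htr
    exact h.algebraMap (A := Ω)
  have hpow := linearIndependent_pow' htr' (m + 1)
  have hprod := linearIndependent_smul hpow hind
  -- push to `Ω`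
  have hΩ : LinearIndependent ℂ fun p : Fin (m + 1) × Fin N =>
      t ^ (p.1 : ℕ) * (a p.2 * ((b p.2 : extendScalars hle) : Ω)) := by
    have h1 := hprod.map' ((extendScalars hle).val.restrictScalars ℂ).toLinearMap
      (LinearMap.ker_eq_bot.2 (extendScalars hle).val.injective)
    exact h1
  let e := (finProdFinEquiv (m := m + 1) (n := N)).symm
  let F : Fin (m + 1) × Fin N → K := fun p =>
    ⟨t ^ (p.1 : ℕ) * (a p.2 * ((b p.2 : extendScalars hle) : Ω)),
      mul_mem (pow_mem ht _) (habK p.2)⟩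
  have hF : LinearIndependent ℂ F :=
    LinearIndependent.of_comp (K.val.toLinearMap) hΩ
  refine ⟨F ∘ e, hF.comp _ e.injective, fun v j => ⟨fun hv => ?_, fun hv => ?_⟩⟩
  · show t ^ ((e j).1 : ℕ) * (a (e j).2 * ((b (e j).2 : extendScalars hle) : Ω)) ∈ v.ring
    exact mul_mem (pow_mem hv _) (ha _ v hv)
  · show (t ^ (m + ∑ i, c i))⁻¹ *
      (t ^ ((e j).1 : ℕ) * (a (e j).2 * ((b (e j).2 : extendScalars hle) : Ω))) ∈ v.ring
    have hinv : t⁻¹ ∈ v.ring := (v.ring.mem_or_inv_mem t).resolve_left hv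
    have hj1 : ((e j).1 : ℕ) ≤ m := Nat.lt_succ_iff.1 (e j).1.2
    have hj2 : c (e j).2 ≤ ∑ i, c i := Finset.single_le_sum (f := c) (fun _ _ => Nat.zero_le _)
      (Finset.mem_univ _)
    have e1 : (t ^ (m + ∑ i, c i))⁻¹ *
        (t ^ ((e j).1 : ℕ) * (a (e j).2 * ((b (e j).2 : extendScalars hle) : Ω)))
        = t⁻¹ ^ (m - ((e j).1 : ℕ)) * t⁻¹ ^ ((∑ i, c i) - c (e j).2) *
          ((t ^ c (e j).2)⁻¹ * (a (e j).2 * ((b (e j).2 : extendScalars hle) : Ω))) := by
      have e2 : t ^ (m + ∑ i, c i)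
          = t ^ (m - ((e j).1 : ℕ)) * t ^ ((e j).1 : ℕ) *
            (t ^ ((∑ i, c i) - c (e j).2) * t ^ c (e j).2) := by
        rw [← pow_add, ← pow_add, ← pow_add]
        congr 1
        omega
      rw [e2, inv_pow, inv_pow]
      field_simp
    rw [e1]
    exact mul_mem (mul_mem (pow_mem hinv _) (pow_mem hinv _)) (hc _ v hv)

end PTH

theorem pt_chi_le {K : IntermediateField ℂ Ω} (hK : FF K) : chi K ≤ 2 := by
  classical
  obtain ⟨t, ht, htr⟩ := PTH.exists_transcendental hK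
  rw [pt_chi_eq_chiOver hK ht htr]
  obtain ⟨hfin, hchi⟩ := chiOver_eq_sum hK ht htr
  obtain ⟨D, -, hker, hloc⟩ := exists_derivation hK ht htr
  obtain ⟨c, hfam⟩ := PTH.exists_family hK ht htr
  have ht0 : t ≠ 0 := fun h => htr (by rw [h]; exact isAlgebraic_zero)
  have hle : ℂ⟮t⟯ ≤ K := adjoin_simple_le_iff.2 ht
  have hNpos : 0 < ℂ⟮t⟯.relfinrank K := ff_relfinrank_pos (PTH.ff_adjoin htr) hK hle
  set N := ℂ⟮t⟯.relfinrank K with hN
  obtain ⟨n, M, hn, hM, f, hind, hf⟩ : ∃ n M : ℕ, n = (2 * c + 1 + 1) * N ∧ M = 2 * c + 1 + c ∧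
      ∃ f : Fin n → K, LinearIndependent ℂ f ∧
        ∀ (v : Pt Ω) (j), (t ∈ v.ring → (f j : Ω) ∈ v.ring) ∧
          (t ∉ v.ring → (t ^ M)⁻¹ * (f j : Ω) ∈ v.ring) := by
    obtain ⟨f, hind, hf⟩ := hfam (2 * c + 1)
    exact ⟨_, _, rfl, rfl, f, hind, hf⟩
  set S := ∑ i ∈ Finset.range n, i with hS
  have hW : wron D f ≠ 0 := by
    refine wron_ne_zero D (fun x hx => ?_) f hind
    obtain ⟨z, hz⟩ := IntermediateField.mem_bot.1 (hker x hx)
    exact ⟨z, Subtype.ext hz⟩
  have hzero := sum_ordO hK ((wron D f : K) : Ω)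
  have hWfin := finite_ordO hK ((wron D f : K) : Ω)
  let e' : Pl K → ℤ := fun P => if 0 < ordO P.pt K t⁻¹ then ordO P.pt K t⁻¹ else 0
  have he'fin : (Function.support e').Finite := by
    refine (finite_ordO hK t⁻¹).subset fun P hP => ?_
    simp only [Function.mem_support, e'] at hP
    show ordO P.pt K t⁻¹ ≠ 0
    intro h
    rw [h] at hP
    simp at hP
  have htinv : Transcendental ℂ t⁻¹ := fun h => htr (by simpa using h.inv)
  have hadj : ℂ⟮t⁻¹⟯ = ℂ⟮t⟯ := by
    apply le_antisymm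
    · exact adjoin_simple_le_iff.2 (inv_mem (mem_adjoin_simple_self ℂ t))
    · refine adjoin_simple_le_iff.2 ?_
      have := inv_mem (mem_adjoin_simple_self ℂ t⁻¹)
      simpa using this
  have hsum_e : ∑ᶠ P, e' P = (N : ℤ) := by
    have h1 := sum_zeros_ordO hK (inv_mem ht) htinv
    rw [hadj] at h1
    rw [hN, ← h1, finsum_mem_def]
    refine finsum_congr fun P => ?_
    by_cases hP : 0 < ordO P.pt K t⁻¹
    · simp [e', hP]
    · simp [e', hP]
  have hbound : ∀ P : Pl K, (S : ℤ) * (-ordD P.pt K t) - (n * M : ℤ) * e' P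
      ≤ ordO P.pt K ((wron D f : K) : Ω) := by
    intro P
    obtain ⟨h1, h2⟩ := hloc P.pt
    by_cases htP : t ∈ P.pt.ring
    · have h3 : e' P = 0 := by
        have h4 : 0 ≤ ordO P.pt K t := (ordO_nonneg_iff P.pt hK ht ht0).2 htP
        have h5 : ¬ 0 < ordO P.pt K t⁻¹ := by
          rw [ordO_inv P.pt hK ht]; omega
        simp only [e', if_neg h5]
      rw [h3, mul_zero, sub_zero]
      exact PTH.local_bound hK D hker P.pt h1 h2 f (fun j => (hf P.pt j).1 htP) hW
    · have h4 : ordO P.pt K t < 0 := by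
        by_contra h
        push Not at h
        exact htP ((ordO_nonneg_iff P.pt hK ht ht0).1 h)
      have h3 : e' P = -ordO P.pt K t := by
        have h5 : 0 < ordO P.pt K t⁻¹ := by
          rw [ordO_inv P.pt hK ht]; omega
        simp only [e', if_pos h5]
        exact ordO_inv P.pt hK ht
      set T : K := ⟨t ^ M, pow_mem ht M⟩ with hT
      have hT0 : T ≠ 0 := fun h => pow_ne_zero M ht0 (congrArg Subtype.val h)
      let g : Fin n → K := fun j => T⁻¹ * f j
      have hfg : f = fun j => T * g j := by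
        funext j
        simp only [g]
        rw [← mul_assoc, mul_inv_cancel₀ hT0, one_mul]
      have hwf : wron D f = T ^ n * wron D g := by
        conv_lhs => rw [hfg]
        exact wron_mul_left D T g
      have hg0 : wron D g ≠ 0 := by
        intro h
        rw [h, mul_zero] at hwf
        exact hW hwf
      have h6 := PTH.local_bound hK D hker P.pt h1 h2 g (fun j => (hf P.pt j).2 htP) hg0
      have h7 : ((wron D f : K) : Ω) = (T : Ω) ^ n * ((wron D g : K) : Ω) := by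
        rw [hwf]; push_cast; rfl
      rw [h7, ordO_mul P.pt hK (pow_mem T.2 _) (wron D g).2 (pow_ne_zero _ (PTH.ne_zero_coe hT0))
        (PTH.ne_zero_coe hg0), PTH.ordO_pow P.pt hK T.2 (PTH.ne_zero_coe hT0)]
      have h8 : ordO P.pt K (T : Ω) = M * ordO P.pt K t := PTH.ordO_pow P.pt hK ht ht0 M
      rw [h8, h3]
      linarith
  have hDfin : (Function.support fun P : Pl K => -ordD P.pt K t).Finite := by
    refine hfin.subset fun P hP => ?_
    simp only [Function.mem_support] at hP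
    exact fun h => hP (by rw [h, neg_zero])
  have hsD : (Function.support fun P : Pl K => (S : ℤ) * (-ordD P.pt K t)).Finite :=
    hDfin.subset fun P hP => by
      simp only [Function.mem_support] at hP ⊢
      exact right_ne_zero_of_mul hP
  have hsE : (Function.support fun P : Pl K => (n * M : ℤ) * e' P).Finite :=
    he'fin.subset fun P hP => by
      simp only [Function.mem_support] at hP ⊢
      exact right_ne_zero_of_mul hP
  have hsL : (Function.support fun P : Pl K =>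
      (S : ℤ) * (-ordD P.pt K t) - (n * M : ℤ) * e' P).Finite := by
    refine (hsD.union hsE).subset fun P hP => ?_
    by_contra hcon
    simp only [Set.mem_union, Function.mem_support, not_or, not_not] at hcon hP
    exact hP (by rw [hcon.1, hcon.2, sub_zero])
  have hmain := PTH.finsum_mono' hsL hWfin hbound
  rw [hzero, finsum_sub_distrib hsD hsE, ← mul_finsum, ← mul_finsum,
    hsum_e, finsum_neg_distrib, ← hchi] at hmain
  have hS2 : (S : ℤ) * 2 = n * (n - 1) := by
    have h := Finset.sum_range_id_mul_two n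
    have hn1 : 1 ≤ n := by rw [hn]; exact Nat.mul_pos (by omega) hNpos
    rw [← hS] at h
    have := congrArg (Nat.cast : ℕ → ℤ) h
    push_cast [Nat.cast_sub hn1] at this
    exact this
  by_contra hcon
  push Not at hcon
  have hχ : 3 ≤ chiOver t K := hcon
  have hnZ : (n : ℤ) = (2 * c + 2) * N := by rw [hn]; push_cast; ring
  have hMZ : (M : ℤ) = 3 * c + 1 := by rw [hM]; push_cast; ring
  have hN1 : (1 : ℤ) ≤ N := by exact_mod_cast hNpos
  have hc0 : (0 : ℤ) ≤ c := Int.natCast_nonneg c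
  have hnpos : (0 : ℤ) < n := by rw [hnZ]; positivity
  have hS0 : (0 : ℤ) ≤ S := Int.natCast_nonneg S
  -- `S * 3 ≤ n M N`
  have h1 : (S : ℤ) * 3 ≤ n * M * N := by nlinarith
  have h2 : (n : ℤ) * ((n - 1) * 3) ≤ n * (2 * (M * N)) := by nlinarith
  have h3 : ((n : ℤ) - 1) * 3 ≤ 2 * (M * N) := le_of_mul_le_mul_left h2 hnpos
  rw [hnZ, hMZ] at h3
  nlinarith

end Pool.Agent.Helper63.Pak
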